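import Pool.Agent.Helper294.PD3Nil

/-! A Klein bottle subgroup of the Nil-manifold group of `PD3Nil`: it is a two-dimensional
Poincare duality group, equal to its normaliser, and the whole group commensurates it. -/

namespace Pool.Agent.Helper294.PD3Kl
open Pool.Agent.Helper294.PD3Nil
open CategoryTheory Finsupp

/-- the subgroup generated by `z` and `t` -/
def KK : Subgroup Nil where
  carrier := {g | g.b = 0}
  one_mem' := rfl
  mul_mem' := by
    rintro x y (h1 : x.b = 0) (h2 : y.b = 0)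
    change (x * y).b = 0
    simp [h1, h2]
  inv_mem' := by
    rintro x (h : x.b = 0)
    change (x⁻¹).b = 0
    simp [h]

lemma mem_KK {g : Nil} : g ∈ KK ↔ g.b = 0 := Iff.rfl

def zk : KK := ⟨zz, rfl⟩
def tk : KK := ⟨tt, rfl⟩

abbrev RK : Type := MonoidAlgebra ℤ KK

/-- group elements in the group ring -/
noncomputable def ek (g : KK) : RK := MonoidAlgebra.single g 1

lemma ek_mul (g h : KK) : ek g * ek h = ek (g * h) := by
  simp [ek, MonoidAlgebra.single_mul_single]

lemma ek_one : ek 1 = 1 := rfl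

lemma coeff_ek_mul (g : KK) (m : RK) : (ek g * m).coeff = mapDomain (fun h => g * h) m.coeff := by
  induction m using MonoidAlgebra.induction_linear with
  | zero => simp
  | add x y hx hy => rw [mul_add, MonoidAlgebra.coeff_add, hx, hy, MonoidAlgebra.coeff_add, mapDomain_add]
  | single h r => simp [ek, MonoidAlgebra.single_mul_single, mapDomain_single]

lemma coeff_mul_ek (g : KK) (m : RK) : (m * ek g).coeff = mapDomain (fun h => h * g) m.coeff := by
  induction m using MonoidAlgebra.induction_linear with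
  | zero => simp
  | add x y hx hy => rw [add_mul, MonoidAlgebra.coeff_add, hx, hy, MonoidAlgebra.coeff_add, mapDomain_add]
  | single h r => simp [ek, MonoidAlgebra.single_mul_single, mapDomain_single]

lemma coeff_dlk (g : KK) (m : RK) : ((ek g - 1) * m).coeff = sh (fun h => g * h) m.coeff := by
  rw [sub_mul, one_mul, sh_apply, ← coeff_ek_mul]; rfl

lemma coeff_drk (g : KK) (m : RK) : (m * (ek g - 1)).coeff = sh (fun h => h * g) m.coeff := by
  rw [mul_sub, mul_one, sh_apply, ← coeff_mul_ek]; rfl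

lemma ek_ext {m n : RK} (h : m.coeff = n.coeff) : m = n := MonoidAlgebra.coeff_inj.1 h

/-- projection to the last coordinate -/
noncomputable def p1 : RK →+ (ℤ →₀ ℤ) :=
  (mapDomain.addMonoidHom (fun g : KK => (g : Nil).c)).comp MonoidAlgebra.coeffAddEquiv.toAddMonoidHom

lemma p1_apply (m : RK) : p1 m = mapDomain (fun g : KK => (g : Nil).c) m.coeff := rfl

lemma p1_surj : Function.Surjective p1 := by
  intro m
  refine ⟨MonoidAlgebra.ofCoeff (mapDomain (fun c : ℤ => (⟨⟨0, 0, c⟩, rfl⟩ : KK)) m), ?_⟩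
  rw [p1_apply, MonoidAlgebra.coeff_ofCoeff, ← mapDomain_comp]
  exact mapDomain_id

noncomputable def Zk : RK := ek zk
noncomputable def Zki : RK := ek zk⁻¹
noncomputable def Tk : RK := ek tk

lemma Zk_Zki : Zk * Zki = 1 := by rw [Zk, Zki, ek_mul, mul_inv_cancel, ek_one]
lemma Zki_Zk : Zki * Zk = 1 := by rw [Zk, Zki, ek_mul, inv_mul_cancel, ek_one]
lemma Tk_Zk : Tk * Zk = Zki * Tk := by
  rw [Zk, Zki, Tk, ek_mul, ek_mul]
  congr 1

lemma J1 : (Tk + Zki) * (Zk - 1) + (1 - Zki) * (Tk - 1) = 0 := by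
  linear_combination (norm := noncomm_ring) Tk_Zk + Zki_Zk

lemma kk_ext {s u : KK} (h1 : (s : Nil).c = (u : Nil).c) (h2 : (s : Nil).a = (u : Nil).a) : s = u :=
  Subtype.ext (Nil.ext h2 (s.2.trans u.2.symm) h1)

/-! ### right multiplication -/

lemma rk1 {m : RK} (h : m * (Zk - 1) = 0) : m = 0 := by
  apply ek_ext
  apply sh_injective (fun h => h * zk) (mul_left_injective zk) (fun g => sg (g : Nil).c * (g : Nil).a)
    (by intro s; have := sg_mul_self (s : Nil).c; simp [zk]; linear_combination this)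
  rw [← coeff_drk]
  change (m * (Zk - 1)).coeff = _
  rw [h]; simp

lemma rk_ker {m : RK} (h : p1 m = 0) : ∃ k, m = k * (Zk - 1) := by
  obtain ⟨k, hk⟩ := sh_ker' (Equiv.mulRight zk) (fun g : KK => (g : Nil).c)
    (fun c => (⟨⟨0, 0, c⟩, rfl⟩ : KK))
    (fun g => sg (g : Nil).c * (g : Nil).a)
    (by intro s; have := sg_mul_self (s : Nil).c; simp [zk]; linear_combination this)
    (by intro s; simp [zk]) (fun _ => by simp) (fun _ => rfl)
    (by
      intro s u h1 h2
      apply kk_ext h1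
      have e1 := sg_mul_self (s : Nil).c
      rw [← h1] at h2
      linear_combination sg (s : Nil).c * h2 - ((s : Nil).a - (u : Nil).a) * e1) m.coeff h
  refine ⟨MonoidAlgebra.ofCoeff k, ek_ext ?_⟩
  rw [Zk, coeff_drk]
  exact hk.symm

lemma p1_mul_Z (m : RK) : p1 (m * (Zk - 1)) = 0 := by
  rw [p1_apply, Zk, coeff_drk]
  exact map_sh _ _ (by intro s; simp [zk]) _

lemma p1_mul_T (m : RK) : p1 (m * (Tk - 1)) = sh (fun c => c + 1) (p1 m) := by
  rw [p1_apply, Tk, coeff_drk]
  exact map_sh_comm _ _ _ (by intro s; simp [tk]) _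

lemma sh_one_injective : Function.Injective (sh (fun c : ℤ => c + 1)) :=
  sh_injective _ (add_left_injective 1) (fun c => c) (fun _ => rfl)

lemma rk2 {m n : RK} (h : m * (Tk - 1) = n * (Zk - 1)) : ∃ k, m = k * (Zk - 1) := by
  apply rk_ker
  apply sh_one_injective
  rw [← p1_mul_T, h, p1_mul_Z, map_zero]

/-- the augmentation -/
noncomputable def augk : RK →+ ℤ := q3.comp p1

lemma augk_single (g : KK) (r : ℤ) : augk (MonoidAlgebra.single g r) = r := by
  simp [augk, p1_apply, q3_apply, mapDomain_single]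

lemma rk3 {m : RK} (h : augk m = 0) : ∃ a c, m = a * (Zk - 1) + c * (Tk - 1) := by
  obtain ⟨u, hu⟩ := ex_three (p1 m) h
  obtain ⟨v, rfl⟩ := p1_surj u
  obtain ⟨k, hk⟩ := rk_ker (m := m - v * (Tk - 1)) (by rw [map_sub, p1_mul_T, hu, sub_self])
  exact ⟨k, v, by rw [← hk]; abel⟩

/-! ### left multiplication -/

lemma lk1 {m : RK} (h : (Zk - 1) * m = 0) : m = 0 := by
  apply ek_ext
  apply sh_injective (fun h => zk * h) (mul_right_injective zk) (fun g => (g : Nil).a)
    (by intro s; simp [zk]; ring)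
  rw [← coeff_dlk]
  change ((Zk - 1) * m).coeff = _
  rw [h]; simp

lemma lk_ker {m : RK} (h : p1 m = 0) : ∃ k, m = (Zk - 1) * k := by
  obtain ⟨k, hk⟩ := sh_ker' (Equiv.mulLeft zk) (fun g : KK => (g : Nil).c)
    (fun c => (⟨⟨0, 0, c⟩, rfl⟩ : KK))
    (fun g => (g : Nil).a) (by intro s; simp [zk]; ring) (by intro s; simp [zk]) (fun _ => rfl) (fun _ => rfl)
    (by
      intro s u h1 h2
      exact kk_ext h1 h2) m.coeff h
  refine ⟨MonoidAlgebra.ofCoeff k, ek_ext ?_⟩
  rw [Zk, coeff_dlk]
  exact hk.symm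

lemma p1_ek_mul (g : KK) (m : RK) : p1 (ek g * m) = mapDomain (fun c => (g : Nil).c + c) (p1 m) := by
  rw [p1_apply, coeff_ek_mul, p1_apply, ← mapDomain_comp, ← mapDomain_comp]
  congr 1

lemma p1_Z_mul (m : RK) : p1 ((Zk - 1) * m) = 0 := by
  rw [p1_apply, Zk, coeff_dlk]
  exact map_sh _ _ (by intro s; simp [zk]) _

/-- multiplication by signs -/
noncomputable def sgn : (ℤ →₀ ℤ) →+ (ℤ →₀ ℤ) :=
  Finsupp.liftAddHom (fun c => (Finsupp.singleAddHom c).comp (AddMonoidHom.mulLeft (sg c)))

lemma sgn_single (c r : ℤ) : sgn (single c r) = single c (sg c * r) := by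
  simp [sgn]

lemma sgn_sgn (m : ℤ →₀ ℤ) : sgn (sgn m) = m := by
  induction m using Finsupp.induction_linear with
  | zero => simp
  | add f g hf hg => rw [map_add, map_add, hf, hg]
  | single c r => rw [sgn_single, sgn_single, ← mul_assoc, sg_mul_self, one_mul]

/-- the shift plus the identity -/
noncomputable def sp : (ℤ →₀ ℤ) →+ (ℤ →₀ ℤ) :=
  Finsupp.mapDomain.addMonoidHom (fun c : ℤ => 1 + c) + AddMonoidHom.id _

lemma sp_apply (m : ℤ →₀ ℤ) : sp m = mapDomain (fun c => 1 + c) m + m := rfl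

lemma sgn_sp (m : ℤ →₀ ℤ) : sgn (sp m) = - sh (fun c : ℤ => c + 1) (sgn m) := by
  induction m using Finsupp.induction_linear with
  | zero => simp
  | add f g hf hg => rw [map_add, map_add, hf, hg, map_add, map_add]; abel
  | single c r =>
    rw [sp_apply, mapDomain_single, map_add, sgn_single, sgn_single, sh_single, sg_add, sg_one,
      add_comm 1 c]
    simp [Finsupp.single_neg]
    try abel

lemma sp_injective : Function.Injective sp := by
  rw [injective_iff_map_eq_zero]
  intro m hm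
  have h := sgn_sp m
  rw [hm, map_zero] at h
  have h2 : sgn m = 0 := sh_one_injective (by rw [map_zero]; exact neg_eq_zero.1 h.symm)
  rw [← sgn_sgn m, h2, map_zero]

lemma sp_ker {m : ℤ →₀ ℤ} (h : q3 (sgn m) = 0) : ∃ k, sp k = m := by
  obtain ⟨u, hu⟩ := ex_three (sgn m) h
  refine ⟨- sgn u, ?_⟩
  have h1 : sgn (sp (- sgn u)) = sgn m := by
    rw [sgn_sp, map_neg, sgn_sgn, map_neg, neg_neg, hu]
  rw [← sgn_sgn (sp (- sgn u)), h1, sgn_sgn]

lemma p1_TZ_mul (m : RK) : p1 ((Tk + Zki) * m) = sp (p1 m) := by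
  rw [add_mul, map_add, Tk, Zki, p1_ek_mul, p1_ek_mul, sp_apply]
  congr 1
  have : (fun c : ℤ => ((zk⁻¹ : KK) : Nil).c + c) = id := by
    funext c; simp [zk]
  rw [this, mapDomain_id]

lemma lk2 {a c : RK} (h : (Tk + Zki) * a + (1 - Zki) * c = 0) :
    ∃ m, a = (Zk - 1) * m ∧ c = (Tk - 1) * m := by
  have e : (1 - Zki) * c = (Zk - 1) * (Zki * c) := by
    linear_combination (norm := noncomm_ring) - Zk_Zki * c
  have h1 : p1 a = 0 := by
    apply sp_injective
    rw [← p1_TZ_mul, map_zero]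
    have h2 := congrArg p1 h
    rw [map_add, e, p1_Z_mul, add_zero, map_zero] at h2
    exact h2
  obtain ⟨m, hm⟩ := lk_ker h1
  refine ⟨m, hm, ?_⟩
  have h4 : c - (Tk - 1) * m = 0 := by
    apply lk1
    linear_combination (norm := noncomm_ring) Zk * h - Zk * (Tk + Zki) * hm - Zk * J1 * m + Zk_Zki * (c - (Tk - 1) * m)
  linear_combination (norm := noncomm_ring) h4

/-- the augmentation twisted by signs -/
noncomputable def augs : RK →+ ℤ := q3.comp (sgn.comp p1)

lemma augs_single (g : KK) (r : ℤ) : augs (MonoidAlgebra.single g r) = sg (g : Nil).c * r := by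
  have h : p1 (MonoidAlgebra.single g r) = single ((g : Nil).c) r := by
    simp [p1_apply, mapDomain_single]
  change q3 (sgn (p1 (MonoidAlgebra.single g r))) = _
  rw [h, sgn_single, q3_apply, mapDomain_single, single_eq_same]

lemma augs_mul (r s : RK) : augs (r * s) = augs r * augs s := by
  induction r using MonoidAlgebra.induction_linear with
  | zero => simp
  | add x y hx hy => rw [add_mul, map_add, hx, hy, map_add, add_mul]
  | single g r =>
    induction s using MonoidAlgebra.induction_linear with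
    | zero => simp
    | add x y hx hy => rw [mul_add, map_add, hx, hy, map_add, mul_add]
    | single h s =>
      rw [MonoidAlgebra.single_mul_single, augs_single, augs_single, augs_single, Subgroup.coe_mul,
        Nil.mul_c, sg_add]
      ring

lemma augs_TZ : augs (Tk + Zki) = 0 := by
  rw [map_add, Tk, Zki, ek, ek, augs_single, augs_single]
  simp [tk, zk]

lemma augs_Z : augs (1 - Zki) = 0 := by
  rw [map_sub, Zki, ek, show (1 : RK) = MonoidAlgebra.single 1 1 from rfl, augs_single, augs_single]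
  simp [zk]

lemma lk3 {m : RK} (h : augs m = 0) : ∃ a c, m = (Tk + Zki) * a + (1 - Zki) * c := by
  obtain ⟨u, hu⟩ := sp_ker (m := p1 m) h
  obtain ⟨v, rfl⟩ := p1_surj u
  obtain ⟨k, hk⟩ := lk_ker (m := m - (Tk + Zki) * v) (by rw [map_sub, p1_TZ_mul, hu, sub_self])
  refine ⟨v, Zk * k, ?_⟩
  linear_combination (norm := noncomm_ring) hk + Zki_Zk * k

/-! ### right exactness -/

lemma exK1 {a c : RK} (h : a * (Zk - 1) + c * (Tk - 1) = 0) :
    ∃ e, a = e * (Tk + Zki) ∧ c = e * (1 - Zki) := by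
  obtain ⟨c1, hc⟩ := rk2 (m := c) (n := -a) (by linear_combination (norm := noncomm_ring) h)
  have hc' : c = (c1 * Zk) * (1 - Zki) := by
    linear_combination (norm := noncomm_ring) hc + c1 * Zk_Zki
  refine ⟨c1 * Zk, ?_, hc'⟩
  have h1 : a - (c1 * Zk) * (Tk + Zki) = 0 := by
    apply rk1
    linear_combination (norm := noncomm_ring) h - hc' * (Tk - 1) - (c1 * Zk) * J1
  linear_combination (norm := noncomm_ring) h1

lemma exK2 {e : RK} (h : e * (1 - Zki) = 0) : e = 0 := by
  apply rk1
  linear_combination (norm := noncomm_ring) h * Zk + e * Zki_Zk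

/-- ranks of the free modules -/
def mk : ℕ → ℕ
  | 0 => 1
  | 1 => 2
  | 2 => 1
  | _ + 3 => 0

/-- the matrices of the differentials -/
noncomputable def Mk : ∀ n, Fin (mk (n + 1)) → Fin (mk n) → RK
  | 0 => ![![Zk - 1], ![Tk - 1]]
  | 1 => ![![Tk + Zki, 1 - Zki]]
  | _ + 2 => fun i => Fin.elim0 i

lemma ag_eqk (r : RK) : ag ℤ KK r = augk r := by
  induction r using MonoidAlgebra.induction_linear with
  | zero => simp [ag_zero]
  | add x y hx hy => rw [ag_add, hx, hy, map_add]
  | single g r => rw [ag_single, augk_single]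

lemma augk_one : augk 1 = 1 := augk_single 1 1

lemma aZk : augk (Zk - 1) = 0 := by rw [map_sub, augk_one, Zk, ek, augk_single, sub_self]
lemma aTk : augk (Tk - 1) = 0 := by rw [map_sub, augk_one, Tk, ek, augk_single, sub_self]

/-- vector to finsupp -/
noncomputable def vek {n : ℕ} (f : Fin n → RK) : Fin n →₀ RK := Finsupp.equivFunOnFinite.symm f

lemma goodK : Good mk Mk where
  hA := by
    intro n
    match n with
    | 0 =>
      intro (i : Fin 1) (l : Fin 1)
      change ∑ j : Fin 2, Mk 1 i j * Mk 0 j l = 0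
      rw [Fin.sum_univ_two]
      fin_cases l
      fin_cases i
      exact J1
    | 1 => intro i; exact Fin.elim0 i
    | n + 2 => intro i; exact Fin.elim0 i
  h0 := by
    intro (i : Fin 2)
    change ∑ j : Fin 1, ag ℤ KK (Mk 0 i j) = 0
    rw [Fin.sum_univ_one, ag_eqk]
    fin_cases i
    · exact aZk
    · exact aTk
  hε := by
    intro x
    refine ⟨vek (n := 1) ![MonoidAlgebra.single 1 x], ?_⟩
    change ∑ i : Fin 1, ag ℤ KK (vek (n := 1) ![MonoidAlgebra.single 1 x] i) = x
    rw [Fin.sum_univ_one, ag_eqk]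
    exact augk_single 1 x
  hex0 := by
    intro f hf
    change ∑ i : Fin 1, ag ℤ KK (f i) = 0 at hf
    rw [Fin.sum_univ_one, ag_eqk] at hf
    obtain ⟨a, b, h⟩ := rk3 hf
    refine ⟨vek (n := 2) ![a, b], ?_⟩
    intro (j : Fin 1)
    change f j = ∑ i : Fin 2, vek (n := 2) ![a, b] i * Mk 0 i j
    rw [Fin.sum_univ_two]
    fin_cases j
    exact h
  hex := by
    intro n
    match n with
    | 0 =>
      intro f hf
      have hf := hf (0 : Fin 1)
      change ∑ j : Fin 2, f j * Mk 0 j (0 : Fin 1) = 0 at hf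
      rw [Fin.sum_univ_two] at hf
      obtain ⟨e, h1, h2⟩ := exK1 hf
      refine ⟨vek (n := 1) ![e], ?_⟩
      intro (j : Fin 2)
      change f j = ∑ i : Fin 1, vek (n := 1) ![e] i * Mk 1 i j
      rw [Fin.sum_univ_one]
      fin_cases j
      · exact h1
      · exact h2
    | 1 =>
      intro f hf
      have hf1 := hf (1 : Fin 2)
      change ∑ j : Fin 1, f j * Mk 1 j (1 : Fin 2) = 0 at hf1
      rw [Fin.sum_univ_one] at hf1
      have h := exK2 (e := f (0 : Fin 1)) hf1
      refine ⟨0, ?_⟩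
      intro (j : Fin 1)
      rw [Subsingleton.elim j 0]
      change f (0 : Fin 1) = ∑ i : Fin 0, _
      rw [Fin.sum_univ_zero]
      exact h
    | n + 2 =>
      intro f hf
      refine ⟨0, ?_⟩
      intro j
      exact Fin.elim0 j

/-! ### cohomology -/

theorem K3 (M : Rep ℤ KK) : Subsingleton (groupCohomology M 3) := by
  apply goodK.vanish_succ M 2
  intro x _
  refine ⟨0, ?_⟩
  rw [comp_eq_iff]
  intro i
  exact Fin.elim0 i

noncomputable abbrev RRk : Rep ℤ KK := Rep.ofMulAction ℤ KK KK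

lemma RRk_asAlgebraHom (r : RK) (x : RRk) : RRk.ρ.asAlgebraHom r x = (r * x : RK) :=
  Representation.asAlgebraHom_ofMulAction_smul_eq_mul r x

/-- value of a morphism on a basis vector -/
noncomputable def valk {n : ℕ} (x : XX ℤ KK mk n ⟶ RRk) (i : Fin (mk n)) : RK :=
  x.hom (single i (MonoidAlgebra.single 1 1))

lemma valk_comp {n : ℕ} (y : XX ℤ KK mk n ⟶ RRk) (x : XX ℤ KK mk (n + 1) ⟶ RRk) :
    dd mk Mk n ≫ y = x ↔ ∀ i, ∑ j, Mk n i j * valk y j = valk x i := by
  rw [comp_eq_iff]
  refine forall_congr' fun i => ?_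
  have : ∑ j, RRk.ρ.asAlgebraHom (Mk n i j) (y.hom (single j (MonoidAlgebra.single 1 1))) =
      ∑ j, Mk n i j * valk y j :=
    Finset.sum_congr rfl fun j _ => RRk_asAlgebraHom _ _
  rw [this]; rfl

lemma valk_zero_iff {n : ℕ} (x : XX ℤ KK mk n ⟶ RRk) : x = 0 ↔ ∀ i, valk x i = 0 :=
  hom_eq_zero_iff RRk n x

lemma valk_zero {n : ℕ} (i : Fin (mk n)) : valk (0 : XX ℤ KK mk n ⟶ RRk) i = 0 :=
  (valk_zero_iff _).1 rfl i

/-- morphism with given values -/
noncomputable def mork (n : ℕ) (F : Fin (mk n) → RK) : XX ℤ KK mk n ⟶ RRk := Rep.freeLift ℤ KK RRk F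

lemma valk_mork (n : ℕ) (F : Fin (mk n) → RK) (i : Fin (mk n)) : valk (mork n F) i = F i :=
  lift_single RRk n F i

theorem K0 : Subsingleton (groupCohomology RRk 0) := by
  apply goodK.vanish_zero RRk
  intro x hx
  rw [valk_comp] at hx
  have h := hx (0 : Fin 2)
  change ∑ j : Fin 1, Mk 0 (0 : Fin 2) j * valk x j = valk (n := 1) 0 (0 : Fin 2) at h
  rw [valk_zero (n := 1), Fin.sum_univ_one] at h
  rw [valk_zero_iff]
  intro (i : Fin 1)
  rw [Subsingleton.elim i 0]
  exact lk1 h

theorem K1 : Subsingleton (groupCohomology RRk 1) := by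
  apply goodK.vanish_succ RRk 0
  intro x hx
  rw [valk_comp] at hx
  have h1 := hx (0 : Fin 1)
  change ∑ j : Fin 2, Mk 1 (0 : Fin 1) j * valk x j = valk (n := 2) 0 (0 : Fin 1) at h1
  rw [valk_zero (n := 2), Fin.sum_univ_two] at h1
  obtain ⟨m, e1, e2⟩ := lk2 (a := valk (n := 1) x (0 : Fin 2)) (c := valk (n := 1) x (1 : Fin 2)) h1
  refine ⟨mork 0 ![m], ?_⟩
  rw [valk_comp]
  intro (i : Fin 2)
  change ∑ j : Fin 1, Mk 0 i j * valk (mork 0 ![m]) j = valk (n := 1) x i
  rw [Fin.sum_univ_one, valk_mork]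
  fin_cases i
  · exact e1.symm
  · exact e2.symm

lemma augs_smul (c : ℤ) (r : RK) : augs (c • r) = c * augs r := by
  rw [map_zsmul]; rfl

/-- the evaluation of the top class -/
noncomputable def topHomk : (XX ℤ KK mk 2 ⟶ RRk) →ₗ[ℤ] ℤ where
  toFun x := augs (valk x (0 : Fin 1))
  map_add' _ _ := map_add augs _ _
  map_smul' c _ := augs_smul c _

theorem K2 : Nonempty (groupCohomology RRk 2 ≃+ ℤ) := by
  obtain ⟨e⟩ := goodK.top RRk 1 (by
      intro x
      rw [valk_zero_iff]
      intro i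
      exact Fin.elim0 i) topHomk
    (by
      intro c
      refine ⟨mork 2 (fun _ => MonoidAlgebra.single 1 c), ?_⟩
      change augs (valk (mork 2 _) (0 : Fin 1)) = c
      rw [valk_mork, augs_single]
      simp)
    (by
      intro x
      change augs (valk (n := 2) x (0 : Fin 1)) = 0 ↔ _
      constructor
      · intro h
        obtain ⟨e1, e2, he⟩ := lk3 h
        refine ⟨mork 1 ![e1, e2], ?_⟩
        rw [valk_comp]
        intro (i : Fin 1)
        rw [Subsingleton.elim i 0]
        change ∑ j : Fin 2, Mk 1 (0 : Fin 1) j * valk (mork 1 ![e1, e2]) j = valk (n := 2) x (0 : Fin 1)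
        rw [Fin.sum_univ_two, valk_mork, valk_mork]
        exact he.symm
      · rintro ⟨y, hy⟩
        rw [valk_comp] at hy
        have h := hy (0 : Fin 1)
        change ∑ j : Fin 2, Mk 1 (0 : Fin 1) j * valk y j = valk (n := 2) x (0 : Fin 1) at h
        rw [← h, Fin.sum_univ_two, map_add, augs_mul, augs_mul]
        change augs (Tk + Zki) * _ + augs (1 - Zki) * _ = 0
        rw [augs_TZ, augs_Z]; ring)
  exact ⟨e.toAddEquiv⟩

/-! ### group theory -/

lemma zpow_ne (c : ℤ) (h : sg c = 1) : (c : ZMod 2) = 0 := by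
  rw [ZMod.intCast_zmod_eq_zero_iff_dvd]
  by_contra hc
  have h2 : ¬ Even c := fun ⟨d, hd⟩ => hc ⟨d, by push_cast; omega⟩
  have h3 : Odd c := Int.not_even_iff_odd.1 h2
  rw [sg, Int.negOnePow_odd _ h3] at h
  norm_num at h

/-- the normal core: elements of `KK` with even last coordinate -/
def NN : Subgroup Nil := KK ⊓ par.ker

lemma mem_NN {g : Nil} : g ∈ NN ↔ g.b = 0 ∧ (g.c : ZMod 2) = 0 := Iff.rfl

lemma NN_conj (g h : Nil) (hh : h ∈ NN) : g * h * g⁻¹ ∈ NN := by
  obtain ⟨h1, h2⟩ := mem_NN.1 hh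
  have hs : sg h.c = 1 := sg_even_of h2
  rw [mem_NN]
  constructor
  · simp [h1, sg_add, hs]
    have := sg_mul_self g.c
    linear_combination (- g.b) * this
  · simp [h2]

instance : NN.Normal := ⟨fun h hh g => NN_conj g h hh⟩

lemma NN_relIndex : NN.relIndex KK ≠ 0 := by
  have h1 : (par.ker).relIndex KK ≠ 0 := by
    have : (par.ker).FiniteIndex := inferInstance
    exact ne_zero_of_dvd_ne_zero this.index_ne_zero (Subgroup.relIndex_dvd_index_of_normal par.ker KK)
  rw [NN, inf_comm, Subgroup.inf_relIndex_right]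
  exact h1

open scoped Pointwise

/-- every element commensurates `KK` -/
lemma comm_KK : Subgroup.Commensurable.commensurator KK = ⊤ := by
  have h : Subgroup.Commensurable KK NN := by
    constructor
    · have hle : NN ≤ KK := inf_le_left
      rw [Subgroup.relIndex_eq_one.2 hle]
      exact one_ne_zero
    · exact NN_relIndex
  rw [Subgroup.Commensurable.eq h, eq_top_iff]
  intro g _
  rw [Subgroup.Commensurable.commensurator_mem_iff]
  have : (ConjAct.toConjAct g • NN : Subgroup Nil) = NN := by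
    exact Subgroup.Normal.conjAct inferInstance _
  rw [this]

lemma KK_normalizer : Subgroup.normalizer (KK : Set Nil) = KK := by
  apply le_antisymm _ Subgroup.le_normalizer
  intro g hg
  rw [Subgroup.mem_normalizer_iff] at hg
  have h := (hg tt).1 rfl
  have h2 : (g * tt * g⁻¹).b = 0 := h
  have e : (g * tt * g⁻¹).b = 2 * g.b := by
    have := sg_mul_self g.c
    simp [sg_add]
    linear_combination (g.b) * this
  rw [e] at h2
  rw [mem_KK]
  omega

lemma KK_index : ¬ KK.FiniteIndex := by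
  intro h
  obtain ⟨n, hn, hx⟩ := Subgroup.exists_pow_mem_of_index_ne_zero h.index_ne_zero xx
  have h1 := hx.2
  rw [pow_xx, mem_KK] at h1
  simp at h1
  omega

/-! ### the cyclic subgroup -/

lemma HH_le : HH ≤ KK := fun _ h => h.2

lemma HH_normalizer : Subgroup.normalizer (HH : Set Nil) = HH := by
  apply le_antisymm _ Subgroup.le_normalizer
  intro g hg
  rw [Subgroup.mem_normalizer_iff] at hg
  exact self_norm g hg

/-- even powers of `t` -/
def N0 : Subgroup Nil := HH ⊓ par.ker

lemma mem_N0 {g : Nil} : g ∈ N0 ↔ (g.a = 0 ∧ g.b = 0) ∧ (g.c : ZMod 2) = 0 := Iff.rfl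

lemma zz_comm_N0 {g : Nil} (hg : g ∈ N0) : zz * g = g * zz := by
  obtain ⟨⟨ha, hb⟩, hc⟩ := mem_N0.1 hg
  have hs : sg g.c = 1 := sg_even_of hc
  ext
  · simp [ha, hb, hs]
  · simp [hb]
  · simp

lemma zz_comm_HH : zz ∈ Subgroup.Commensurable.commensurator HH := by
  have h : Subgroup.Commensurable HH N0 := by
    constructor
    · have hle : N0 ≤ HH := inf_le_left
      rw [Subgroup.relIndex_eq_one.2 hle]
      exact one_ne_zero
    · have h1 : (par.ker).relIndex HH ≠ 0 := by
        have : (par.ker).FiniteIndex := inferInstance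
        exact ne_zero_of_dvd_ne_zero this.index_ne_zero (Subgroup.relIndex_dvd_index_of_normal par.ker HH)
      rw [N0, inf_comm, Subgroup.inf_relIndex_right]
      exact h1
  rw [Subgroup.Commensurable.eq h, Subgroup.Commensurable.commensurator_mem_iff]
  have : (ConjAct.toConjAct zz • N0 : Subgroup Nil) = N0 := by
    ext g
    rw [Subgroup.mem_smul_pointwise_iff_exists]
    constructor
    · rintro ⟨s, hs, rfl⟩
      rw [ConjAct.smul_def, ConjAct.ofConjAct_toConjAct, zz_comm_N0 hs, mul_inv_cancel_right]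
      exact hs
    · intro hg
      refine ⟨g, hg, ?_⟩
      rw [ConjAct.smul_def, ConjAct.ofConjAct_toConjAct, zz_comm_N0 hg, mul_inv_cancel_right]
  rw [this]

lemma pow_zz (n : ℕ) : zz ^ n = ⟨n, 0, 0⟩ := by
  induction n with
  | zero => rfl
  | succ n ih => rw [pow_succ, ih]; ext <;> simp

lemma HH_index : ¬ (HH.subgroupOf (Subgroup.Commensurable.commensurator HH)).FiniteIndex := by
  intro h
  obtain ⟨n, hn, hx⟩ := Subgroup.exists_pow_mem_of_index_ne_zero h.index_ne_zero ⟨zz, zz_comm_HH⟩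
  have h1 := hx.2
  rw [Subgroup.mem_subgroupOf] at h1
  change zz ^ n ∈ HH at h1
  rw [pow_zz, mem_HH] at h1
  simp at h1
  omega

/-- the cyclic subgroup is infinite cyclic -/
lemma HH_cyclic : Nonempty (HH ≃* Multiplicative ℤ) := by
  refine ⟨{ toFun := fun g => Multiplicative.ofAdd (g : Nil).c
            invFun := fun c => ⟨⟨0, 0, Multiplicative.toAdd c⟩, rfl, rfl⟩
            left_inv := fun g => HH_ext rfl
            right_inv := fun c => rfl
            map_mul' := fun g h => by simp [ofAdd_add] }⟩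

end Pool.Agent.Helper294.PD3Kl
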